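import Pool.Agent.V11307.QSecond
import Pool.Agent.V11307.QClosed2

set_option autoImplicit false

/-!
# `∑_{k<mn} q^k (1+q^{4k+1})/(1+q) (q²;q⁴)_k³/(q⁴;q⁴)_k³` modulo `Φ_n(q)²`, `n ≡ 1 (mod 4)`
-/

namespace Pool.Agent.Results.MP_c9c571_nt.HalfCube

open Polynomial Finset

noncomputable section

/-- The indeterminate `q` of the field `ℚ(q)`. -/
def q : RatFunc ℚ := RatFunc.X

/-- `a_k(q) = q^k (1+q^{4k+1})/(1+q) ∏_{j<k} ((1-q^{4j+2})/(1-q^{4j+4}))³`. -/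
def a (k : ℕ) : RatFunc ℚ :=
  q ^ k * ((1 + q ^ (4 * k + 1)) / (1 + q)) *
    ∏ j ∈ range k, ((1 - q ^ (4 * j + 2)) / (1 - q ^ (4 * j + 4))) ^ 3

/-- `R_n(q) = q^{(1-n)/2} [n]_{q²} ∏_{j=0}^{(n-3)/2} (1-q^{4j+3})/(1-q^{4j+5})` (for odd `n > 1`,
the product has `(n-1)/2` factors). -/
def Rn (n : ℕ) : RatFunc ℚ :=
  q ^ ((1 - (n : ℤ)) / 2) * (∑ i ∈ range n, (q ^ 2) ^ i) *
    ∏ j ∈ range ((n - 1) / 2), (1 - q ^ (4 * j + 3)) / (1 - q ^ (4 * j + 5))

/-- The rising factorial `(x)_k = x (x+1) ⋯ (x+k-1)`. -/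
def rising (x : ℚ) (k : ℕ) : ℚ := ∏ j ∈ range k, (x + j)

/-- `c_k = (1/2)_k³ / k!³`. -/
def c (k : ℕ) : ℚ := rising (1 / 2) k ^ 3 / (k.factorial : ℚ) ^ 3

/-- `A ≡ B (mod Φ_n(q)²)`: `A - B = P/Q` with `Q` coprime to `Φ_n` and `Φ_n² ∣ P`. -/
def CongSq (n : ℕ) (A B : RatFunc ℚ) : Prop :=
  ∃ P Q : ℚ[X], IsCoprime Q (cyclotomic n ℚ) ∧ cyclotomic n ℚ ^ 2 ∣ P ∧
    A - B = algebraMap ℚ[X] (RatFunc ℚ) P / algebraMap ℚ[X] (RatFunc ℚ) Q

open V11307.Q V11307.WZ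

theorem hyp (M : ℕ) (hM : 0 < M) :
    Hyp (fun i => 4 * i + 2) (fun i => 4 * i + 4) id (2 * M + 1) M where
  hn := by omega
  hM := by omega
  ha l := by ring
  ha' l i hi hiM := by
    intro hd
    have h1 : 4 * (l * (2 * M + 1) + i) + 2 = (2 * M + 1) * (4 * l) + 2 * (2 * i + 1) := by ring
    rw [h1, Nat.dvd_add_right (dvd_mul_right _ _)] at hd
    have hc : Nat.Coprime (2 * M + 1) 2 := by simp
    obtain ⟨c, hc⟩ := hc.dvd_of_dvd_mul_left hd
    have : c < 2 := by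
      by_contra h
      have : (2 * M + 1) * 2 ≤ (2 * M + 1) * c := Nat.mul_le_mul_left _ (by omega)
      omega
    interval_cases c <;> omega
  hb l := by
    have : 2 * M + 1 - 1 = 2 * M := by omega
    simp only [this]; ring
  hb' l i hi hiM := by
    intro hd
    have h1 : 4 * (l * (2 * M + 1) + i) + 4 = (2 * M + 1) * (4 * l) + 2 * (2 * (i + 1)) := by ring
    rw [h1, Nat.dvd_add_right (dvd_mul_right _ _)] at hd
    have hc : Nat.Coprime (2 * M + 1) 2 := by simp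
    have h2 := hc.dvd_of_dvd_mul_left (hc.dvd_of_dvd_mul_left hd)
    have := Nat.le_of_dvd (Nat.succ_pos _) h2
    omega
  ha0 t := by omega
  hb0 t := by omega
  haa t j h := by omega
  hab t j h := by omega
  hd := Or.inl fun _ => rfl

/-- undeformed factor -/
def w (g : RatFunc ℚ) (k : ℕ) : RatFunc ℚ :=
  g ^ k * (1 + g ^ (4 * k + 1)) * ∏ u ∈ range k, (1 - g ^ (4 * u + 2)) / (1 - g ^ (4 * u + 4))

/-- closed form factor -/
def r (g : RatFunc ℚ) (i : ℕ) : RatFunc ℚ := (1 - g ^ (4 * i + 3)) / (1 - g ^ (4 * i + 5))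

theorem one_add_ne {n : ℕ} (hn : 0 < n) : (1 : RatFunc ℚ) + V11307.Q.q ^ n ≠ 0 := by
  intro h
  have h2 : (1 : RatFunc ℚ) - V11307.Q.q ^ (2 * n) ≠ 0 := one_sub_ne (by omega)
  apply h2
  rw [two_mul, pow_add]
  linear_combination (1 - V11307.Q.q ^ n) * h

/-- products of closed form factors over a block -/
theorem block_r {κ : ℕ} (hκ : 0 < κ) (t : ℕ) :
    ∃ β, I (4 * κ + 1) 2 (β - 1) ∧ β ∈ R (4 * κ + 1) ∧
      ∏ j ∈ range (4 * κ + 1), r V11307.Q.q (2 * κ + (t * (4 * κ + 1) + j)) =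
        r (V11307.Q.q ^ (4 * κ + 1)) t * β := by
  set n := 4 * κ + 1 with hn
  have hn0 : 0 < n := by omega
  have hY : I n 1 (V11307.Q.q ^ ((4 * t + 2) * n) - 1) := I.symm (I_one_sub_nat hn0 (dvd_mul_left _ _))
  obtain ⟨h1, hU1, hU3⟩ := lemB hκ hn hY
  refine ⟨_, h1, (hU1.div hU3).2.1, ?_⟩
  have e1 : ∏ j ∈ range n, r V11307.Q.q (2 * κ + (t * n + j)) =
      (∏ j ∈ range n, (1 - V11307.Q.q ^ ((4 * t + 2) * n) * V11307.Q.q ^ (4 * j + 1))) /
      ∏ j ∈ range n, (1 - V11307.Q.q ^ ((4 * t + 2) * n) * V11307.Q.q ^ (4 * j + 3)) := by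
    rw [← prod_div_distrib]
    refine prod_congr rfl fun j _ => ?_
    rw [r, ← pow_add, ← pow_add]
    congr 3
    · rw [hn]; ring
    · rw [hn]; ring
  rw [e1, ← mul_prod_erase (range n) (fun j => 1 - V11307.Q.q ^ ((4 * t + 2) * n) * V11307.Q.q ^ (4 * j + 1))
    (mem_range.2 (show κ < n by omega)), ← mul_prod_erase (range n)
    (fun j => 1 - V11307.Q.q ^ ((4 * t + 2) * n) * V11307.Q.q ^ (4 * j + 3))
    (mem_range.2 (show 3 * κ < n by omega)), mul_div_mul_comm]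
  congr 1
  rw [r, ← pow_add, ← pow_add, ← pow_mul, ← pow_mul]
  congr 3
  · rw [hn]; ring
  · rw [hn]; ring

theorem block_r_all {κ : ℕ} (hκ : 0 < κ) (l : ℕ) :
    ∃ β, I (4 * κ + 1) 2 (β - 1) ∧ β ∈ R (4 * κ + 1) ∧
      ∏ j ∈ range (l * (4 * κ + 1)), r V11307.Q.q (2 * κ + j) =
        (∏ t ∈ range l, r (V11307.Q.q ^ (4 * κ + 1)) t) * β := by
  induction l with
  | zero => exact ⟨1, by rw [sub_self]; exact I.zero, one_mem _, by simp⟩
  | succ l ih =>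
    obtain ⟨β, h1, h2, h3⟩ := ih
    obtain ⟨β', h1', h2', h3'⟩ := block_r hκ l
    refine ⟨β * β', ?_, mul_mem h2 h2', ?_⟩
    · have := I.mul_congr h1 h1' (one_mem _) h2'
      rwa [mul_one] at this
    · rw [add_mul, one_mul, prod_range_add, h3, h3', prod_range_succ]
      ring

/-- Main congruence in local form. -/
theorem main_I (m κ : ℕ) (hκ : 0 < κ) :
    I (4 * κ + 1) 2 (∑ k ∈ range (m * (4 * κ + 1)), a k -
      Rn (4 * κ + 1) * RatFunc.C (∑ k ∈ range m, c k)) := by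
  set n := 4 * κ + 1 with hn
  have hn0 : 0 < n := by omega
  have H := hyp (2 * κ) (by omega)
  rw [show 2 * (2 * κ) + 1 = n by omega] at H
  have hq1 : (1 : RatFunc ℚ) - V11307.Q.q ≠ 0 := by
    have := one_sub_ne (k := 1) one_pos
    rwa [pow_one] at this
  have hU1 : IsU n (1 - V11307.Q.q) := by
    have := (one_sub_U hn0 (e := 1) (by intro h; have := Nat.le_of_dvd one_pos h; omega))
    rwa [pow_one] at this
  have hU2 : IsU n (1 + V11307.Q.q) := by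
    have h2 := (one_sub_U hn0 (e := 2) (by intro h; have := Nat.le_of_dvd two_pos h; omega))
    have : 1 + V11307.Q.q = (1 - V11307.Q.q ^ 2) / (1 - V11307.Q.q) := by
      field_simp; ring
    rw [this]
    exact h2.div hU1
  -- the closed form constant
  set C : RatFunc ℚ := (V11307.Q.q ^ (2 * κ))⁻¹ * (1 - V11307.Q.q ^ (4 * (2 * κ) + 2)) *
    (1 - V11307.Q.q)⁻¹ * (1 + V11307.Q.q)⁻¹ * ∏ i ∈ range (2 * κ), r V11307.Q.q i with hC
  have hW : ∀ k, w V11307.Q.q k * (1 + V11307.Q.q)⁻¹ ∈ R n := by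
    intro k
    exact mul_mem (mul_mem (mul_mem (pow_mem q_mem _) (add_mem (one_mem _) (pow_mem q_mem _)))
      (H.single k)) hU2.2.2
  -- integrality of (1 - q^{(4l+2)n}) ∏_{i<2κ} r(i)
  have hint : ∀ l : ℕ, (1 - V11307.Q.q ^ ((4 * l + 2) * n)) * ∏ i ∈ range (2 * κ), r V11307.Q.q i ∈ R n := by
    intro l
    have h1 : ∏ i ∈ range (2 * κ), r V11307.Q.q i =
        (∏ i ∈ range (2 * κ), (1 - V11307.Q.q ^ (4 * i + 3))) /
          ((1 - V11307.Q.q ^ n) * ∏ i ∈ (range (2 * κ)).erase (κ - 1), (1 - V11307.Q.q ^ (4 * i + 5))) := by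
      have h2 := mul_prod_erase (range (2 * κ)) (fun i => 1 - V11307.Q.q ^ (4 * i + 5))
        (mem_range.2 (show κ - 1 < 2 * κ by omega))
      rw [show 4 * (κ - 1) + 5 = n by omega] at h2
      rw [h2, ← prod_div_distrib]
      rfl
    have hden : IsU n (∏ i ∈ (range (2 * κ)).erase (κ - 1), (1 - V11307.Q.q ^ (4 * i + 5))) := by
      refine IsU.prod fun i hi => one_sub_U hn0 ?_
      rw [mem_erase, mem_range] at hi
      rintro ⟨d, hd⟩
      have : d < 2 := by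
        by_contra h
        have : n * 2 ≤ n * d := Nat.mul_le_mul_left _ (by omega)
        omega
      interval_cases d <;> omega
    have hg := geom_U_nat hn0 (e := 4 * l + 2) (by omega)
    have h3 : (1 - V11307.Q.q ^ ((4 * l + 2) * n)) * ∏ i ∈ range (2 * κ), r V11307.Q.q i =
        ((1 - V11307.Q.q ^ ((4 * l + 2) * n)) / (1 - V11307.Q.q ^ n)) *
        ((∏ i ∈ range (2 * κ), (1 - V11307.Q.q ^ (4 * i + 3))) *
          (∏ i ∈ (range (2 * κ)).erase (κ - 1), (1 - V11307.Q.q ^ (4 * i + 5)))⁻¹) := by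
      rw [h1]
      simp only [div_eq_mul_inv, mul_inv]
      ring
    rw [h3]
    exact mul_mem hg.2.1 (mul_mem (prod_mem fun i _ => sub_mem (one_mem _) (pow_mem q_mem _))
      hden.2.2)
  have hrn : ∀ t, r (V11307.Q.q ^ n) t ∈ R n := by
    intro t
    have h0 := one_sub_ne hn0
    rw [r, ← pow_mul, ← pow_mul, mul_comm n, mul_comm n]
    have : (1 - V11307.Q.q ^ ((4 * t + 3) * n)) / (1 - V11307.Q.q ^ ((4 * t + 5) * n)) =
        ((1 - V11307.Q.q ^ ((4 * t + 3) * n)) / (1 - V11307.Q.q ^ n)) /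
          ((1 - V11307.Q.q ^ ((4 * t + 5) * n)) / (1 - V11307.Q.q ^ n)) := by
      rw [div_div_div_cancel_right₀ h0]
    rw [this]
    exact ((geom_U_nat hn0 (by omega)).div (geom_U_nat hn0 (by omega))).2.1
  have main := H.main (fun k => w V11307.Q.q k * (1 + V11307.Q.q)⁻¹) hW C
    (fun t => w (V11307.Q.q ^ n) t * (1 + V11307.Q.q ^ n)⁻¹) (by
      intro l
      have hl : (4 * l + 2) * n = 4 * (l * n + 2 * κ) + 2 := by rw [hn]; ring
      have c1 := cf2 q_ne q_ne_one' (l * n + 2 * κ)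
      have c2 := cf2 (pow_ne_zero n q_ne) (q_pow_ne_one hn0) l
      have e1 : ∑ k ∈ range (l * n + 2 * κ + 1), w V11307.Q.q k * (1 + V11307.Q.q)⁻¹ *
          ∏ u ∈ range k, rho (fun i => 4 * i + 2) (fun i => 4 * i + 4) id (sv ((4 * l + 2) * n)) u =
          ((V11307.Q.q ^ (l * n + 2 * κ))⁻¹ * (1 - V11307.Q.q ^ ((4 * l + 2) * n)) *
            (1 - V11307.Q.q)⁻¹ * ∏ i ∈ range (l * n + 2 * κ), r V11307.Q.q i) * (1 + V11307.Q.q)⁻¹ := by
        rw [hl]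
        refine Eq.trans ?_ (congrArg (· * (1 + V11307.Q.q)⁻¹) c1)
        rw [sum_mul]
        refine sum_congr rfl fun k _ => ?_
        rw [mul_right_comm]
        rfl
      have e2 : ∑ t ∈ range (l + 1), w (V11307.Q.q ^ n) t * (1 + V11307.Q.q ^ n)⁻¹ *
          ∏ u ∈ range t, EE' (fun i => 4 * i + 2) (fun i => 4 * i + 4) id n (sv ((4 * l + 2) * n)) u =
          (((V11307.Q.q ^ n) ^ l)⁻¹ * (1 - (V11307.Q.q ^ n) ^ (4 * l + 2)) *
            (1 - V11307.Q.q ^ n)⁻¹ * ∏ i ∈ range l, r (V11307.Q.q ^ n) i) * (1 + V11307.Q.q ^ n)⁻¹ := by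
        refine Eq.trans ?_ (congrArg (· * (1 + V11307.Q.q ^ n)⁻¹) c2)
        rw [sum_mul]
        refine sum_congr rfl fun t _ => ?_
        rw [mul_right_comm]
        congr 1
        rw [w]
        congr 1
        refine prod_congr rfl fun u _ => ?_
        simp only [EE', id]
        rw [f_eq_mul, f_eq_mul, sv_eq_mul]
      rw [e1, e2]
      obtain ⟨β, hβ1, hβ2, hβ3⟩ := block_r_all hκ l
      rw [← hn] at hβ1 hβ2 hβ3
      have e3 : ∏ i ∈ range (l * n + 2 * κ), r V11307.Q.q i =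
          (∏ i ∈ range (2 * κ), r V11307.Q.q i) * ((∏ t ∈ range l, r (V11307.Q.q ^ n) t) * β) := by
        rw [add_comm, prod_range_add, hβ3]
      have e4 : (1 - V11307.Q.q ^ (4 * (2 * κ) + 2)) * ((1 - V11307.Q.q ^ n)⁻¹ * (1 + V11307.Q.q ^ n)⁻¹) = 1 := by
        have h1 := one_sub_ne hn0
        have h2 := one_add_ne hn0
        have h3 : V11307.Q.q ^ (4 * (2 * κ) + 2) = V11307.Q.q ^ n * V11307.Q.q ^ n := by
          rw [← pow_add]; congr 1; rw [hn]; ring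
        rw [h3]
        field_simp
        ring
      have e5 : (V11307.Q.q ^ (l * n + 2 * κ))⁻¹ = (V11307.Q.q ^ (2 * κ))⁻¹ * ((V11307.Q.q ^ n) ^ l)⁻¹ := by
        rw [← mul_inv, ← pow_mul, ← pow_add]; congr 2; ring
      have e6 : (V11307.Q.q ^ n) ^ (4 * l + 2) = V11307.Q.q ^ ((4 * l + 2) * n) := by
        rw [← pow_mul, mul_comm]
      have e7 : ((V11307.Q.q ^ (l * n + 2 * κ))⁻¹ * (1 - V11307.Q.q ^ ((4 * l + 2) * n)) *
            (1 - V11307.Q.q)⁻¹ * ∏ i ∈ range (l * n + 2 * κ), r V11307.Q.q i) * (1 + V11307.Q.q)⁻¹ -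
          C * ((((V11307.Q.q ^ n) ^ l)⁻¹ * (1 - (V11307.Q.q ^ n) ^ (4 * l + 2)) *
            (1 - V11307.Q.q ^ n)⁻¹ * ∏ i ∈ range l, r (V11307.Q.q ^ n) i) * (1 + V11307.Q.q ^ n)⁻¹) =
          (β - 1) * (((V11307.Q.q ^ (2 * κ))⁻¹ * ((V11307.Q.q ^ n) ^ l)⁻¹) *
            ((1 - V11307.Q.q)⁻¹ * (1 + V11307.Q.q)⁻¹) *
            ((1 - V11307.Q.q ^ ((4 * l + 2) * n)) * ∏ i ∈ range (2 * κ), r V11307.Q.q i) *
            ∏ i ∈ range l, r (V11307.Q.q ^ n) i) := by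
        rw [e3, e5, e6, hC]
        linear_combination (-((V11307.Q.q ^ (2 * κ))⁻¹ * (1 - V11307.Q.q)⁻¹ * (1 + V11307.Q.q)⁻¹ *
          (∏ i ∈ range (2 * κ), r V11307.Q.q i) * ((V11307.Q.q ^ n) ^ l)⁻¹ *
          (1 - V11307.Q.q ^ ((4 * l + 2) * n)) * ∏ i ∈ range l, r (V11307.Q.q ^ n) i)) * e4
      rw [e7]
      refine hβ1.mul_R (mul_mem (mul_mem (mul_mem (mul_mem (qUn hn0 _).2.2 ?_)
        (mul_mem hU1.2.2 hU2.2.2)) (hint l)) (prod_mem fun t _ => hrn t))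
      rw [← pow_mul]; exact (qUn hn0 _).2.2) m
  -- translate
  have hS : ∑ k ∈ range (m * n), a k = ∑ k ∈ range (m * n), w V11307.Q.q k * (1 + V11307.Q.q)⁻¹ *
      ∏ u ∈ range k, rho (fun i => 4 * i + 2) (fun i => 4 * i + 4) id 2 u := by
    refine sum_congr rfl fun k _ => ?_
    have e3 : ∏ u ∈ range k, rho (fun i => 4 * i + 2) (fun i => 4 * i + 4) id 2 u =
        (∏ u ∈ range k, (1 - V11307.Q.q ^ (4 * u + 2)) / (1 - V11307.Q.q ^ (4 * u + 4))) ^ 2 := by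
      rw [← prod_pow]
      refine prod_congr rfl fun u _ => ?_
      simp only [rho, id, f_two]
      rw [div_pow]
    have e4 : a k = V11307.Q.q ^ k * ((1 + V11307.Q.q ^ (4 * k + 1)) / (1 + V11307.Q.q)) *
        (∏ u ∈ range k, (1 - V11307.Q.q ^ (4 * u + 2)) / (1 - V11307.Q.q ^ (4 * u + 4))) ^ 3 := by
      rw [a, prod_pow]; rfl
    rw [e3, e4, w, div_eq_mul_inv (1 + V11307.Q.q ^ (4 * k + 1))]
    ring
  have hRn : Rn n = C := by
    have e1 : (1 - (n : ℤ)) / 2 = -((2 * κ : ℕ) : ℤ) := by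
      rw [hn]; push_cast; omega
    have e2 : (n - 1) / 2 = 2 * κ := by omega
    have e3 : ∑ i ∈ range n, (V11307.Q.q ^ 2) ^ i = (1 - V11307.Q.q ^ (4 * (2 * κ) + 2)) *
        ((1 - V11307.Q.q)⁻¹ * (1 + V11307.Q.q)⁻¹) := by
      have h1 : (1 : RatFunc ℚ) - V11307.Q.q ^ 2 ≠ 0 := one_sub_ne two_pos
      have h2 := geom_sum_mul_neg (V11307.Q.q ^ 2) n
      have h3 : (V11307.Q.q ^ 2) ^ n = V11307.Q.q ^ (4 * (2 * κ) + 2) := by
        rw [← pow_mul]; congr 1; rw [hn]; ring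
      rw [h3] at h2
      have h4 : (1 - V11307.Q.q)⁻¹ * (1 + V11307.Q.q)⁻¹ = (1 - V11307.Q.q ^ 2)⁻¹ := by
        rw [← mul_inv]; congr 1; ring
      rw [h4, ← div_eq_mul_inv, eq_div_iff h1, h2]
    rw [Rn, e1, e2, zpow_neg, zpow_natCast, hC]
    have : q = V11307.Q.q := rfl
    rw [this, e3]
    have e4 : ∏ j ∈ range (2 * κ), (1 - V11307.Q.q ^ (4 * j + 3)) / (1 - V11307.Q.q ^ (4 * j + 5)) =
        ∏ i ∈ range (2 * κ), r V11307.Q.q i := rfl
    rw [e4]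
    ring
  have hCmem : C ∈ R n := by
    rw [hC]
    have h1 := hint 0
    have h2 : (V11307.Q.q ^ (2 * κ))⁻¹ * (1 - V11307.Q.q ^ (4 * (2 * κ) + 2)) *
        (1 - V11307.Q.q)⁻¹ * (1 + V11307.Q.q)⁻¹ * ∏ i ∈ range (2 * κ), r V11307.Q.q i =
        (V11307.Q.q ^ (2 * κ))⁻¹ * ((1 - V11307.Q.q)⁻¹ * (1 + V11307.Q.q)⁻¹) *
        ((1 - V11307.Q.q ^ ((4 * 0 + 2) * n)) * ∏ i ∈ range (2 * κ), r V11307.Q.q i) := by
      have : (4 * 0 + 2) * n = 4 * (2 * κ) + 2 := by rw [hn]; ring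
      rw [this]; ring
    rw [h2]
    exact mul_mem (mul_mem (qUn hn0 _).2.2 (mul_mem hU1.2.2 hU2.2.2)) h1
  have hc : I n 2 (∑ t ∈ range m, w (V11307.Q.q ^ n) t * (1 + V11307.Q.q ^ n)⁻¹ *
      ∏ u ∈ range t, EE' (fun i => 4 * i + 2) (fun i => 4 * i + 4) id n 2 u -
      RatFunc.C (∑ k ∈ range m, c k)) := by
    rw [map_sum, ← sum_sub_distrib]
    apply I.sum
    intro t _
    obtain ⟨hprod, hπmem, hϖmem⟩ := prod_ratio_two hn0 (fun u => 4 * u + 2) (fun u => 4 * u + 4)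
      (fun u => by omega) t (z := -1) (by
        intro u
        push_cast
        have h2ne : (2 : RatFunc ℚ) ≠ 0 := two_ne_zero
        field_simp
        ring)
    set π := ∏ u ∈ range t, (1 - V11307.Q.q ^ ((4 * u + 2) * n)) / (1 - V11307.Q.q ^ ((4 * u + 4) * n)) with hπ
    set ϖ := ∏ u ∈ range t, (((4 * u + 2 : ℕ) : RatFunc ℚ) / ((4 * u + 4 : ℕ) : RatFunc ℚ)) with hϖ
    set ε := eps n with hε
    have hεI := eps_I hn0
    have e1 : w (V11307.Q.q ^ n) t * (1 + V11307.Q.q ^ n)⁻¹ *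
        ∏ u ∈ range t, EE' (fun i => 4 * i + 2) (fun i => 4 * i + 4) id n 2 u =
        (1 + ε) ^ t * ((1 + (1 + ε) ^ (4 * t + 1)) * (1 + V11307.Q.q ^ n)⁻¹) * (π * (π * π)) := by
      have e2 : ∏ u ∈ range t, EE' (fun i => 4 * i + 2) (fun i => 4 * i + 4) id n 2 u = π * π := by
        rw [hπ, ← prod_mul_distrib]
        refine prod_congr rfl fun u _ => ?_
        simp only [EE', id, f_two]
        rw [div_mul_div_comm, sq, sq]
      have e3 : ∏ u ∈ range t, (1 - (V11307.Q.q ^ n) ^ (4 * u + 2)) / (1 - (V11307.Q.q ^ n) ^ (4 * u + 4))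
          = π := by
        rw [hπ]
        refine prod_congr rfl fun u _ => ?_
        rw [← pow_mul, ← pow_mul, mul_comm n, mul_comm n]
      have e4 : 1 + ε = V11307.Q.q ^ n := by rw [hε, eps]; ring
      rw [e2, w, e3, e4]
      ring
    have e4 : RatFunc.C (c t) = ϖ * (ϖ * ϖ) := by
      have e5 : RatFunc.C (rising (1 / 2) t / (t.factorial : ℚ)) = ϖ := by
        have : rising (1 / 2) t / (t.factorial : ℚ) =
            ∏ u ∈ range t, (((4 * u + 2 : ℕ) : ℚ) / ((4 * u + 4 : ℕ) : ℚ)) := by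
          rw [← prod_range_add_one_eq_factorial, rising]
          push_cast
          rw [← prod_div_distrib]
          refine prod_congr rfl fun u _ => ?_
          have : (u : ℚ) + 1 ≠ 0 := by positivity
          field_simp
          ring
        rw [this, map_prod, hϖ]
        refine prod_congr rfl fun u _ => ?_
        rw [map_div₀, map_natCast, map_natCast]
      rw [c, ← div_pow, map_pow, e5]
      ring
    rw [e1, e4]
    have hu : (1 + V11307.Q.q ^ n) = 2 + ε := by rw [hε, eps]; ring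
    have hUn : IsU n (1 + V11307.Q.q ^ n) := by
      have h2 : IsU n (2 : RatFunc ℚ) := by
        have := natCast_U hn0 (e := 2) two_ne_zero
        exact_mod_cast this
      refine h2.congr hn0 ?_
      rw [hu, add_sub_cancel_left]; exact hεI
    have hu1 : (1 + ε) ∈ R n := add_mem (one_mem _) hεI.mem
    -- (1+Q^{4t+1})/(1+Q) ≡ Q^{2t}
    have h1 : I n 2 ((1 + (1 + ε) ^ (4 * t + 1)) * (1 + V11307.Q.q ^ n)⁻¹ - (1 + ε) ^ (2 * t)) := by
      have hk : ∀ j, I n 1 (1 - (1 + ε) ^ j) := by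
        intro j
        have : (1 + ε) ^ j = V11307.Q.q ^ (n * j) := by rw [hε, eps, add_sub_cancel, ← pow_mul]
        rw [this]
        exact I_one_sub_nat hn0 (dvd_mul_right _ _)
      have h2 := ((hk (2 * t)).mul (hk (2 * t + 1))).mul_R hUn.2.2
      have h3 : (1 + V11307.Q.q ^ n) * (1 + V11307.Q.q ^ n)⁻¹ = 1 := mul_inv_cancel₀ hUn.1
      have h4 : (1 + (1 + ε) ^ (4 * t + 1)) * (1 + V11307.Q.q ^ n)⁻¹ - (1 + ε) ^ (2 * t) =
          (1 - (1 + ε) ^ (2 * t)) * (1 - (1 + ε) ^ (2 * t + 1)) * (1 + V11307.Q.q ^ n)⁻¹ := by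
        have h5 : (1 + ε) ^ (4 * t + 1) = (1 + ε) ^ (2 * t) * (1 + ε) ^ (2 * t) * (1 + ε) := by
          rw [← pow_add, ← pow_succ]; congr 1; ring
        rw [h5, pow_succ (1 + ε) (2 * t)]
        generalize (1 + ε) ^ (2 * t) = z
        rw [hu] at h3 ⊢
        linear_combination z * h3
      rw [h4]
      exact h2
    have hXmem : (1 + (1 + ε) ^ (4 * t + 1)) * (1 + V11307.Q.q ^ n)⁻¹ ∈ R n :=
      mul_mem (add_mem (one_mem _) (pow_mem hu1 _)) hUn.2.2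
    have h2 := I.R_mul (pow_mem hu1 t) h1
    have hmε : (1 + -1 * ε) ∈ R n :=
      add_mem (one_mem _) (mul_mem (neg_mem (one_mem _)) hεI.mem)
    have hϖε : ϖ * (1 + -1 * ε) ^ t ∈ R n := mul_mem hϖmem (pow_mem hmε _)
    have h3 := I.mul_congr hprod (I.mul_congr hprod hprod hϖε hπmem) hϖε (mul_mem hπmem hπmem)
    have h4 : I n 2 ((1 + ε) ^ t * ((1 + (1 + ε) ^ (4 * t + 1)) * (1 + V11307.Q.q ^ n)⁻¹) * (π * (π * π)) -
        (1 + ε) ^ t * (1 + ε) ^ (2 * t) * (ϖ * (1 + -1 * ε) ^ t * (ϖ * (1 + -1 * ε) ^ t * (ϖ * (1 + -1 * ε) ^ t)))) := by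
      refine I.mul_congr ?_ h3 (mul_mem (pow_mem hu1 _) (pow_mem hu1 _)) (mul_mem hπmem (mul_mem hπmem hπmem))
      rw [← mul_sub]; exact h2
    have h5 : (1 + ε) ^ t * (1 + ε) ^ (2 * t) * (ϖ * (1 + -1 * ε) ^ t * (ϖ * (1 + -1 * ε) ^ t * (ϖ * (1 + -1 * ε) ^ t)))
        = (1 + -(ε * ε)) ^ (3 * t) * (ϖ * (ϖ * ϖ)) := by
      have : (1 + -(ε * ε)) = (1 + ε) * (1 + -1 * ε) := by ring
      rw [this, mul_pow]
      have a1 : (1 + ε) ^ (3 * t) = (1 + ε) ^ t * (1 + ε) ^ (2 * t) := by rw [← pow_add]; congr 1; ring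
      have a2 : (1 + -1 * ε) ^ (3 * t) = (1 + -1 * ε) ^ t * (1 + -1 * ε) ^ t * (1 + -1 * ε) ^ t := by
        rw [← pow_add, ← pow_add]; congr 1; ring
      rw [a1, a2]
      ring
    rw [h5] at h4
    have h6 : I n 2 ((1 + -(ε * ε)) ^ (3 * t) - 1) := by
      have hee : I n 2 (-(ε * ε)) := (hεI.mul hεI).neg
      have h7 := pow_first_order (hee.mono (by norm_num)) (3 * t)
      have h8 := h7.add (I.R_mul (natCast_mem (R n) (3 * t)) hee)
      convert h8 using 1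
      ring
    have h9 := h6.mul_R (mul_mem hϖmem (mul_mem hϖmem hϖmem))
    have h10 := h4.add h9
    convert h10 using 1
    ring
  have hfin := main.add (I.R_mul hCmem hc)
  rw [hS, hRn]
  convert hfin using 1
  ring

/-- The congruence for all `m ≥ 1` and all `n > 1` with `n ≡ 1 (mod 4)`. -/
theorem result (m n : ℕ) (_hm : 1 ≤ m) (hn : 1 < n) (hn4 : n % 4 = 1) :
    CongSq n (∑ k ∈ range (m * n), a k) (Rn n * RatFunc.C (∑ k ∈ range m, c k)) := by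
  obtain ⟨κ, rfl⟩ : ∃ κ, n = 4 * κ + 1 := ⟨n / 4, by omega⟩
  exact (main_I m κ (by omega)).exists_frac

end

end Pool.Agent.Results.MP_c9c571_nt.HalfCube
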